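import Mathlib
import Pool.Agent.Lib.helper31.IncVar
import Pool.Agent.Lib.helper31.Arcs

namespace Pool.Agent.Results.MP_a762d4_al.Nonelementary

open Pool.Agent.Lib.helper31.IncVar Pool.Agent.Lib.helper31.Arcs FirstOrder

/-- One binary function symbol. -/
inductive MulSym : ℕ → Type
  | mul : MulSym 2

/-- The first-order language of one binary operation. -/
def mulLang : FirstOrder.Language.{0, 0} := ⟨MulSym, fun _ => Empty⟩

/-- A semigroup as a structure: the binary symbol is the multiplication. -/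
@[reducible] def struc (S : Semigrp.{0}) : mulLang.Structure S where
  funMap := fun {_} f v => match f, v with
    | MulSym.mul, v => v 0 * v 1
  RelMap := fun {_} r _ => Empty.elim r

/-- Some set of first-order sentences has, among nonempty semigroups, exactly the members of `K`
as models. -/
def IsElementary (K : Set Semigrp.{0}) : Prop :=
  ∃ Γ : mulLang.Theory, ∀ S : Semigrp.{0}, Nonempty S →
    (S ∈ K ↔ @FirstOrder.Language.Theory.Model mulLang S (struc S) Γ)

def Sig : Set (Word × Set Word) :=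
  {(.of 0 * .of 0, {.of 0}), (.of 0 * .of 1, {.of 1 * .of 0}), (w3 0 1 2, VV)}

lemma T_mem (n : ℕ) : Semigrp.of (T n) ∈ ModelsOf Sig := by
  rintro p (rfl | rfl | rfl) φ
  · refine ⟨_, rfl, ?_⟩
    rw [map_mul]
    exact Subtype.ext (Set.inter_self _)
  · refine ⟨_, rfl, ?_⟩
    rw [map_mul, map_mul]
    exact Subtype.ext (Set.inter_comm _ _)
  · exact T_sat n φ

instance TS (n : ℕ) : mulLang.Structure (T n) := struc (Semigrp.of (T n))

abbrev U : Type := ((Filter.hyperfilter ℕ : Ultrafilter ℕ) : Filter ℕ).Product T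

noncomputable def mulU (a b : U) : U := FirstOrder.Language.Structure.funMap (L := mulLang) MulSym.mul ![a, b]

noncomputable def mkU (x : ∀ n, T n) : U := (x : ((Filter.hyperfilter ℕ : Ultrafilter ℕ) : Filter ℕ).Product T)

lemma mulU_mk (x y : ∀ n, T n) : mulU (mkU x) (mkU y) = mkU (fun n => x n * y n) := by
  have := FirstOrder.Language.Ultraproduct.funMap_cast (L := mulLang) (M := T) (u := Filter.hyperfilter ℕ)
    MulSym.mul ![x, y]
  have e : (fun i => mkU (![x, y] i)) = ![mkU x, mkU y] := by
    funext i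
    fin_cases i <;> rfl
  unfold mulU
  rw [← e]
  exact this

lemma mkU_surj (a : U) : ∃ x, a = mkU x := by
  obtain ⟨x, rfl⟩ := Quotient.exists_rep a
  exact ⟨x, rfl⟩

noncomputable instance : Semigroup U where
  mul := mulU
  mul_assoc a b c := by
    obtain ⟨x, rfl⟩ := mkU_surj a
    obtain ⟨y, rfl⟩ := mkU_surj b
    obtain ⟨z, rfl⟩ := mkU_surj c
    show mulU (mulU _ _) _ = mulU _ (mulU _ _)
    simp only [mulU_mk, mul_assoc]

lemma struc_U : struc (Semigrp.of U) = (inferInstance : mulLang.Structure U) := by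
  apply FirstOrder.Language.Structure.ext
  · funext n f v
    cases f
    show mulU (v 0) (v 1) = _
    unfold mulU
    congr 1
    funext i
    fin_cases i <;> rfl
  · funext n r
    exact Empty.elim r

noncomputable def psiU : Word →ₙ* U where
  toFun w := mkU (fun n => psi n w)
  map_mul' a b := by
    show _ = mulU _ _
    simp only [mulU_mk, map_mul]

theorem result : ∃ K : Set Semigrp.{0}, IsInclusiveVariety K ∧
    (∀ S ∈ K, ∀ x y : S, x * x = x ∧ x * y = y * x) ∧ ¬ IsElementary K := by
  refine ⟨ModelsOf Sig, ⟨Sig, ?_, rfl⟩, ?_, ?_⟩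
  · rintro p (rfl | rfl | rfl)
    · exact ⟨_, rfl⟩
    · exact ⟨_, rfl⟩
    · exact ⟨_, Or.inl rfl⟩
  · intro S hS x y
    constructor
    · obtain ⟨v, hv, e⟩ := hS _ (Or.inl rfl) (FreeSemigroup.lift (fun _ => x))
      obtain rfl : v = .of 0 := hv
      rw [map_mul] at e
      exact e
    · obtain ⟨v, hv, e⟩ := hS _ (Or.inr (Or.inl rfl))
        (FreeSemigroup.lift (fun i => if i = 0 then x else y))
      obtain rfl : v = .of 1 * .of 0 := hv
      rw [map_mul, map_mul] at e
      exact e
  · rintro ⟨Γ, hΓ⟩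
    have h1 : ∀ n, T n ⊨ Γ := fun n => (hΓ (Semigrp.of (T n)) inferInstance).1 (T_mem n)
    have h2 : U ⊨ Γ := by
      rw [FirstOrder.Language.Theory.model_iff]
      intro φ hφ
      rw [FirstOrder.Language.Ultraproduct.sentence_realize]
      exact Filter.Eventually.of_forall (fun n => (h1 n).realize_of_mem φ hφ)
    have h3 : Semigrp.of U ∈ ModelsOf Sig := by
      refine (hΓ (Semigrp.of U) ⟨mkU (fun n => psi n (.of 0))⟩).2 ?_
      rw [struc_U]
      exact h2
    obtain ⟨v, hv, e⟩ := h3 _ (Or.inr (Or.inr rfl)) psiU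
    have e' : ∀ᶠ n in ((Filter.hyperfilter ℕ : Ultrafilter ℕ) : Filter ℕ),
        psi n (w3 0 1 2) = psi n v := Quotient.exact e
    obtain ⟨m, hm⟩ := psi_v v hv
    have hge : ∀ᶠ n in ((Filter.hyperfilter ℕ : Ultrafilter ℕ) : Filter ℕ), max m 1 ≤ n := by
      apply Filter.hyperfilter_le_cofinite
      rw [Nat.cofinite_eq_atTop]
      exact Filter.eventually_ge_atTop _
    obtain ⟨n, e1, e2⟩ := (e'.and hge).exists
    have := hm n (le_of_max_le_left e2)
    rw [← e1, psi_u n (le_of_max_le_right e2)] at this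
    exact Set.not_nonempty_empty this

end Pool.Agent.Results.MP_a762d4_al.Nonelementary
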